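import Mathlib
import Pool.Agent.Helper12.LW.Defs

/-!
# M6: weighted Cauchy-Schwarz with the adjugate, and M5: the weighted slack form
-/

namespace Pool.Agent.Helper38.LW

open Matrix Pool.Agent.Helper12.LW

theorem qf_expand (A : Matrix (Fin 3) (Fin 3) ℝ) (v : Fin 3 → ℝ) :
    qf A v = A 0 0 * (v 0 * v 0) + A 0 1 * (v 0 * v 1) + A 0 2 * (v 0 * v 2)
      + A 1 0 * (v 1 * v 0) + A 1 1 * (v 1 * v 1) + A 1 2 * (v 1 * v 2)
      + A 2 0 * (v 2 * v 0) + A 2 1 * (v 2 * v 1) + A 2 2 * (v 2 * v 2) := by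
  simp only [qf, dotProduct, mulVec, Fin.sum_univ_three]
  ring

/-- the weighted variance identity for two coordinates -/
theorem var_id (w0 w1 w2 w3 a0 a1 a2 a3 b0 b1 b2 b3 : ℝ) :
    w0 * (((w0 + w1 + w2 + w3) * a0 - (w0 * a0 + w1 * a1 + w2 * a2 + w3 * a3)) *
        ((w0 + w1 + w2 + w3) * b0 - (w0 * b0 + w1 * b1 + w2 * b2 + w3 * b3)))
    + w1 * (((w0 + w1 + w2 + w3) * a1 - (w0 * a0 + w1 * a1 + w2 * a2 + w3 * a3)) *
        ((w0 + w1 + w2 + w3) * b1 - (w0 * b0 + w1 * b1 + w2 * b2 + w3 * b3)))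
    + w2 * (((w0 + w1 + w2 + w3) * a2 - (w0 * a0 + w1 * a1 + w2 * a2 + w3 * a3)) *
        ((w0 + w1 + w2 + w3) * b2 - (w0 * b0 + w1 * b1 + w2 * b2 + w3 * b3)))
    + w3 * (((w0 + w1 + w2 + w3) * a3 - (w0 * a0 + w1 * a1 + w2 * a2 + w3 * a3)) *
        ((w0 + w1 + w2 + w3) * b3 - (w0 * b0 + w1 * b1 + w2 * b2 + w3 * b3)))
    = (w0 + w1 + w2 + w3) *
      (w0 * w1 * ((a0 - a1) * (b0 - b1)) + w0 * w2 * ((a0 - a2) * (b0 - b2))
        + w0 * w3 * ((a0 - a3) * (b0 - b3)) + w1 * w2 * ((a1 - a2) * (b1 - b2))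
        + w1 * w3 * ((a1 - a3) * (b1 - b3)) + w2 * w3 * ((a2 - a3) * (b2 - b3))) := by
  ring

/-- the deviation vector -/
def dev (w : Fin 4 → ℝ) (q : Fin 4 → Fin 3 → ℝ) (j : Fin 4) : Fin 3 → ℝ := fun i =>
  (w 0 + w 1 + w 2 + w 3) * q j i - (w 0 * q 0 i + w 1 * q 1 i + w 2 * q 2 i + w 3 * q 3 i)

theorem var_qf (B : Matrix (Fin 3) (Fin 3) ℝ) (w : Fin 4 → ℝ) (q : Fin 4 → Fin 3 → ℝ) :
    ∑ j, w j * qf B (dev w q j) = (w 0 + w 1 + w 2 + w 3) *
      (w 0 * w 1 * qf B (q 0 - q 1) + w 0 * w 2 * qf B (q 0 - q 2)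
        + w 0 * w 3 * qf B (q 0 - q 3) + w 1 * w 2 * qf B (q 1 - q 2)
        + w 1 * w 3 * qf B (q 1 - q 3) + w 2 * w 3 * qf B (q 2 - q 3)) := by
  have key : ∀ a b : Fin 3,
      w 0 * (dev w q 0 a * dev w q 0 b) + w 1 * (dev w q 1 a * dev w q 1 b)
      + w 2 * (dev w q 2 a * dev w q 2 b) + w 3 * (dev w q 3 a * dev w q 3 b)
      = (w 0 + w 1 + w 2 + w 3) *
      (w 0 * w 1 * ((q 0 a - q 1 a) * (q 0 b - q 1 b)) + w 0 * w 2 * ((q 0 a - q 2 a) * (q 0 b - q 2 b))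
        + w 0 * w 3 * ((q 0 a - q 3 a) * (q 0 b - q 3 b)) + w 1 * w 2 * ((q 1 a - q 2 a) * (q 1 b - q 2 b))
        + w 1 * w 3 * ((q 1 a - q 3 a) * (q 1 b - q 3 b)) + w 2 * w 3 * ((q 2 a - q 3 a) * (q 2 b - q 3 b))) :=
    fun a b => var_id (w 0) (w 1) (w 2) (w 3) (q 0 a) (q 1 a) (q 2 a) (q 3 a) (q 0 b) (q 1 b) (q 2 b) (q 3 b)
  simp only [Fin.sum_univ_four, qf_expand, Pi.sub_apply]
  linear_combination B 0 0 * key 0 0 + B 0 1 * key 0 1 + B 0 2 * key 0 2 + B 1 0 * key 1 0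
    + B 1 1 * key 1 1 + B 1 2 * key 1 2 + B 2 0 * key 2 0 + B 2 1 * key 2 1 + B 2 2 * key 2 2

/-- the pairing with the deviations -/
theorem pair_dev (w : Fin 4 → ℝ) (v q : Fin 4 → Fin 3 → ℝ) (hv : ∑ j, v j = 0) :
    ∑ j, v j ⬝ᵥ dev w q j = (w 0 + w 1 + w 2 + w 3) * ∑ j, v j ⬝ᵥ q j := by
  have h : ∀ i : Fin 3, v 0 i + v 1 i + v 2 i + v 3 i = 0 := by
    intro i
    have := congrFun hv i
    simpa [Fin.sum_univ_four, Finset.sum_apply] using this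
  have h0 := h 0
  have h1 := h 1
  have h2 := h 2
  simp only [Fin.sum_univ_four, dotProduct, Fin.sum_univ_three, dev]
  linear_combination (-(w 0 * q 0 0 + w 1 * q 1 0 + w 2 * q 2 0 + w 3 * q 3 0)) * h0
    + (-(w 0 * q 0 1 + w 1 * q 1 1 + w 2 * q 2 1 + w 3 * q 3 1)) * h1
    + (-(w 0 * q 0 2 + w 1 * q 1 2 + w 2 * q 2 2 + w 3 * q 3 2)) * h2

/-- completing the square for one vector -/
theorem qf_shift (A : Matrix (Fin 3) (Fin 3) ℝ) (hA : Aᵀ = A) (v r : Fin 3 → ℝ) (s : ℝ) :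
    qf A (v - s • (A.adjugate *ᵥ r)) =
      qf A v - 2 * s * A.det * (v ⬝ᵥ r) + s ^ 2 * A.det * qf A.adjugate r := by
  have hAu : A *ᵥ (A.adjugate *ᵥ r) = A.det • r := by
    rw [mulVec_mulVec, mul_adjugate, smul_mulVec, one_mulVec]
  have h2 : (A.adjugate *ᵥ r) ⬝ᵥ (A *ᵥ v) = A.det * (v ⬝ᵥ r) := by
    have h3 : (A.adjugate *ᵥ r) ⬝ᵥ (A *ᵥ v) = (A *ᵥ (A.adjugate *ᵥ r)) ⬝ᵥ v := by
      rw [dotProduct_mulVec, ← mulVec_transpose, hA]
    rw [h3, hAu, smul_dotProduct, dotProduct_comm, smul_eq_mul]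
  have h4 : (A.adjugate *ᵥ r) ⬝ᵥ r = qf A.adjugate r := by
    rw [qf, dotProduct_comm]
  unfold qf at h4 ⊢
  rw [mulVec_sub, mulVec_smul, hAu, sub_dotProduct, dotProduct_sub, dotProduct_sub, smul_dotProduct,
    smul_dotProduct, dotProduct_smul, dotProduct_smul, dotProduct_smul, dotProduct_smul, h2, h4]
  simp only [smul_eq_mul]
  ring

/-- M6 (weighted Cauchy-Schwarz). -/
theorem wcs (A : Matrix (Fin 3) (Fin 3) ℝ) (hA : A.PosDef) (v q : Fin 4 → Fin 3 → ℝ) (hv : ∑ j, v j = 0)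
    (a w : Fin 4 → ℝ) (ha : ∀ j, 0 < a j) (haw : ∀ j, a j * w j = 1) :
    (∑ j, v j ⬝ᵥ q j) ^ 2 * (A.det * ∑ j, w j) ≤
      (∑ j, a j * qf A (v j)) *
        (w 0 * w 1 * qf A.adjugate (q 0 - q 1) + w 0 * w 2 * qf A.adjugate (q 0 - q 2)
        + w 0 * w 3 * qf A.adjugate (q 0 - q 3) + w 1 * w 2 * qf A.adjugate (q 1 - q 2)
        + w 1 * w 3 * qf A.adjugate (q 1 - q 3) + w 2 * w 3 * qf A.adjugate (q 2 - q 3)) := by
  have hsymm : Aᵀ = A := by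
    have := hA.isHermitian
    rwa [IsHermitian, conjTranspose_eq_transpose_of_trivial] at this
  have hdet : 0 < A.det := hA.det_pos
  have hnn : ∀ x : Fin 3 → ℝ, 0 ≤ qf A x := by
    intro x
    have := hA.posSemidef.dotProduct_mulVec_nonneg x
    simpa [qf] using this
  have hw : ∀ j, 0 < w j := by
    intro j
    have h1 := ha j
    have h2 := haw j
    by_contra hc
    push Not at hc
    nlinarith [mul_nonneg h1.le (neg_nonneg.mpr hc)]
  set W := w 0 + w 1 + w 2 + w 3 with hW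
  have hWpos : 0 < W := by
    have := hw 0; have := hw 1; have := hw 2; have := hw 3
    linarith
  set S := ∑ j, a j * qf A (v j) with hS
  set V := ∑ j, v j ⬝ᵥ q j with hV
  set R := w 0 * w 1 * qf A.adjugate (q 0 - q 1) + w 0 * w 2 * qf A.adjugate (q 0 - q 2)
        + w 0 * w 3 * qf A.adjugate (q 0 - q 3) + w 1 * w 2 * qf A.adjugate (q 1 - q 2)
        + w 1 * w 3 * qf A.adjugate (q 1 - q 3) + w 2 * w 3 * qf A.adjugate (q 2 - q 3) with hR
  have hvar : ∑ j, w j * qf A.adjugate (dev w q j) = W * R := var_qf A.adjugate w q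
  have hpair : ∑ j, v j ⬝ᵥ dev w q j = W * V := pair_dev w v q hv
  have hquad : ∀ t : ℝ, 0 ≤ S - 2 * t * A.det * (W * V) + t ^ 2 * A.det * (W * R) := by
    intro t
    have h1 : 0 ≤ ∑ j, a j * qf A (v j - (t * w j) • (A.adjugate *ᵥ dev w q j)) :=
      Finset.sum_nonneg fun j _ => mul_nonneg (ha j).le (hnn _)
    have h2 : ∑ j, a j * qf A (v j - (t * w j) • (A.adjugate *ᵥ dev w q j))
        = S - 2 * t * A.det * (W * V) + t ^ 2 * A.det * (W * R) := by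
      rw [← hvar, ← hpair, hS, Finset.mul_sum, Finset.mul_sum, ← Finset.sum_sub_distrib,
        ← Finset.sum_add_distrib]
      refine Finset.sum_congr rfl fun j _ => ?_
      rw [qf_shift A hsymm]
      have h3 := haw j
      linear_combination (-(2 * t * A.det * (v j ⬝ᵥ dev w q j))
        + t ^ 2 * A.det * w j * qf A.adjugate (dev w q j)) * h3
    linarith
  have hdisc : (W * V) ^ 2 * A.det ≤ S * (W * R) := by
    have h1 : discrim (A.det * (W * R)) (-(2 * A.det * (W * V))) S ≤ 0 := by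
      apply discrim_le_zero
      intro t
      have := hquad t
      linarith
    rw [discrim] at h1
    have h2 : A.det * ((W * V) ^ 2 * A.det) ≤ A.det * (S * (W * R)) := by nlinarith
    exact le_of_mul_le_mul_left h2 hdet
  have hsum : ∑ j, w j = W := by rw [hW, Fin.sum_univ_four]
  rw [hsum]
  have hfin : W * (V ^ 2 * (A.det * W)) ≤ W * (S * R) := by
    calc W * (V ^ 2 * (A.det * W)) = (W * V) ^ 2 * A.det := by ring
      _ ≤ S * (W * R) := hdisc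
      _ = W * (S * R) := by ring
  exact le_of_mul_le_mul_left hfin hWpos

end Pool.Agent.Helper38.LW
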