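import Mathlib
import Pool.Agent.Helper12.LW.Defs

/-!
# M5: the weighted slack form
-/

namespace Pool.Agent.Helper38.LW

open Matrix Pool.Agent.Helper12.LW

/-- the scalar inequality -/
theorem feas_scalar (ρ P Q p1 p2 p3 q1 q2 q3 : ℝ) (hρ0 : 0 < ρ) (hρ1 : ρ ≤ 1)
    (hP : 0 ≤ P) (hQ : 0 ≤ Q) (hPρ : P ≤ ρ) (hQρ : Q ≤ ρ)
    (h1 : 0 ≤ p1) (h2 : 0 ≤ p2) (h3 : 0 ≤ p3) (g1 : 0 ≤ q1) (g2 : 0 ≤ q2) (g3 : 0 ≤ q3)
    (hp : P + p1 + p2 + p3 = 1) (hq : Q + q1 + q2 + q3 = 1) :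
    (2 - ρ) / (2 * ρ) * (P - Q) ^ 2 + 1 / 2 * (p1 - q1) ^ 2 + 1 / 2 * (p2 - q2) ^ 2
      + 1 / 2 * (p3 - q3) ^ 2 ≤ 1 := by
  have hA : (p1 - q1) ^ 2 + (p2 - q2) ^ 2 + (p3 - q3) ^ 2 ≤ (1 - P) ^ 2 + (1 - Q) ^ 2 := by
    have e1 : 1 - P = p1 + p2 + p3 := by linarith
    have e2 : 1 - Q = q1 + q2 + q3 := by linarith
    rw [e1, e2]
    nlinarith [mul_nonneg h1 g1, mul_nonneg h2 g2, mul_nonneg h3 g3, mul_nonneg h1 h2, mul_nonneg h1 h3,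
      mul_nonneg h2 h3, mul_nonneg g1 g2, mul_nonneg g1 g3, mul_nonneg g2 g3]
  have hB : (2 - ρ) / (2 * ρ) * (P - Q) ^ 2 + 1 / 2 * ((1 - P) ^ 2 + (1 - Q) ^ 2) ≤ 1 := by
    have e : 1 - ((2 - ρ) / (2 * ρ) * (P - Q) ^ 2 + 1 / 2 * ((1 - P) ^ 2 + (1 - Q) ^ 2))
        = (2 * P * (ρ - P) + 2 * Q * (ρ - Q) + 2 * (2 - ρ) * (P * Q)) / (2 * ρ) := by
      field_simp
      ring
    have h4 : 0 ≤ (2 * P * (ρ - P) + 2 * Q * (ρ - Q) + 2 * (2 - ρ) * (P * Q)) / (2 * ρ) := by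
      apply div_nonneg _ (by linarith)
      have := mul_nonneg hP (sub_nonneg.mpr hPρ)
      have := mul_nonneg hQ (sub_nonneg.mpr hQρ)
      have := mul_nonneg (by linarith : (0 : ℝ) ≤ 2 - ρ) (mul_nonneg hP hQ)
      linarith
    linarith
  linarith

theorem feas_fun (k : Fin 4) (ρ : ℝ) (hρ0 : 0 < ρ) (hρ1 : ρ ≤ 1) (p q : Fin 4 → ℝ)
    (hp : ∀ j, 0 ≤ p j) (hq : ∀ j, 0 ≤ q j) (hps : ∑ j, p j = 1) (hqs : ∑ j, q j = 1)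
    (hpk : p k ≤ ρ) (hqk : q k ≤ ρ) :
    ∑ j, (if j = k then (2 - ρ) / (2 * ρ) else 1 / 2) * (p j - q j) ^ 2 ≤ 1 := by
  rw [Fin.sum_univ_four] at hps hqs ⊢
  fin_cases k
  · have := feas_scalar ρ (p 0) (q 0) (p 1) (p 2) (p 3) (q 1) (q 2) (q 3) hρ0 hρ1 (hp 0) (hq 0) hpk hqk
      (hp 1) (hp 2) (hp 3) (hq 1) (hq 2) (hq 3) (by linarith) (by linarith)
    rw [if_pos (by decide), if_neg (by decide), if_neg (by decide), if_neg (by decide)]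
    linarith
  · have := feas_scalar ρ (p 1) (q 1) (p 0) (p 2) (p 3) (q 0) (q 2) (q 3) hρ0 hρ1 (hp 1) (hq 1) hpk hqk
      (hp 0) (hp 2) (hp 3) (hq 0) (hq 2) (hq 3) (by linarith) (by linarith)
    rw [if_neg (by decide), if_pos (by decide), if_neg (by decide), if_neg (by decide)]
    linarith
  · have := feas_scalar ρ (p 2) (q 2) (p 0) (p 1) (p 3) (q 0) (q 1) (q 3) hρ0 hρ1 (hp 2) (hq 2) hpk hqk
      (hp 0) (hp 1) (hp 3) (hq 0) (hq 1) (hq 3) (by linarith) (by linarith)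
    rw [if_neg (by decide), if_neg (by decide), if_pos (by decide), if_neg (by decide)]
    linarith
  · have := feas_scalar ρ (p 3) (q 3) (p 0) (p 1) (p 2) (q 0) (q 1) (q 2) hρ0 hρ1 (hp 3) (hq 3) hpk hqk
      (hp 0) (hp 1) (hp 2) (hq 0) (hq 1) (hq 2) (by linarith) (by linarith)
    rw [if_neg (by decide), if_neg (by decide), if_neg (by decide), if_pos (by decide)]
    linarith

/-- M5 (feasibility): the weighted slack form. -/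
theorem feas (K : Set (Fin 3 → ℝ)) (P : Fin 4 → Fin 3 → ℤ) (v : Fin 4 → Fin 3 → ℝ)
    (hv : Sep4 K P v) (k : Fin 4) (ρ : ℝ) (hρ0 : 0 < ρ) (hρ1 : ρ ≤ 1)
    (hk : ∀ x ∈ K, v k ⬝ᵥ (toR (P k) - x) ≤ ρ) :
    ∀ x ∈ K, ∀ x' ∈ K, ∑ j, (if j = k then (2 - ρ) / (2 * ρ) else 1 / 2) * (v j ⬝ᵥ (x - x')) ^ 2 ≤ 1 := by
  intro x hx x' hx'
  have hs : ∀ y : Fin 3 → ℝ, ∑ j, v j ⬝ᵥ (toR (P j) - y) = 1 := by
    intro y
    have h1 : ∑ j, v j ⬝ᵥ y = 0 := by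
      rw [← sum_dotProduct, hv.sum_zero, zero_dotProduct]
    have h2 : ∑ j, v j ⬝ᵥ (toR (P j) - y) = ∑ j, v j ⬝ᵥ toR (P j) - ∑ j, v j ⬝ᵥ y := by
      rw [← Finset.sum_sub_distrib]
      exact Finset.sum_congr rfl fun j _ => dotProduct_sub _ _ _
    rw [h2, hv.norm_one, h1, sub_zero]
  have hd : ∀ j, v j ⬝ᵥ (x - x') = v j ⬝ᵥ (toR (P j) - x') - v j ⬝ᵥ (toR (P j) - x) := by
    intro j
    rw [dotProduct_sub, dotProduct_sub, dotProduct_sub]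
    ring
  have hnn : ∀ y ∈ K, ∀ j, 0 ≤ v j ⬝ᵥ (toR (P j) - y) := by
    intro y hy j
    rw [dotProduct_sub]
    linarith [hv.sep j y hy]
  simp only [hd]
  exact feas_fun k ρ hρ0 hρ1 (fun j => v j ⬝ᵥ (toR (P j) - x')) (fun j => v j ⬝ᵥ (toR (P j) - x))
    (hnn x' hx') (hnn x hx) (hs x') (hs x) (hk x' hx') (hk x hx)

end Pool.Agent.Helper38.LW
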