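import Mathlib
import Pool.Agent.Helper12.LW.Defs

/-!
# M2c: the normalised form is positive definite; determinant and adjugate
-/

namespace Pool.Agent.Helper38.LW

open Matrix Pool.Agent.Helper12.LW

theorem mm_det (α β γ : ℝ) :
    (Mm α β γ).det = 1 + 2 * α * β * γ - α ^ 2 - β ^ 2 - γ ^ 2 := by
  rw [Mm, det_fin_three]
  simp
  ring

theorem mm_adjugate (α β γ : ℝ) :
    (Mm α β γ).adjugate = !![1 - γ ^ 2, β * γ - α, α * γ - β;
      β * γ - α, 1 - β ^ 2, α * β - γ;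
      α * γ - β, α * β - γ, 1 - α ^ 2] := by
  rw [Mm, adjugate_fin_three_of]
  ext i j
  fin_cases i <;> fin_cases j <;> simp <;> ring

/-- a lower bound for the determinant in the sector where the product is negative -/
theorem det_aux (a b c : ℝ) (ha : 0 ≤ a) (hb : 0 ≤ b) (hc : 0 ≤ c) (ha2 : a ≤ 1 / 2) (hb2 : b ≤ 1 / 2)
    (hc2 : c ≤ 1 / 2) (h : a + b + c ≤ 1) : 1 / 4 ≤ 1 - 2 * a * b * c - a ^ 2 - b ^ 2 - c ^ 2 := by
  have h1 : a * a ≤ a * (1 / 2) := mul_le_mul_of_nonneg_left ha2 ha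
  have h2 : b * b ≤ b * (1 / 2) := mul_le_mul_of_nonneg_left hb2 hb
  have h3 : c * c ≤ c * (1 / 2) := mul_le_mul_of_nonneg_left hc2 hc
  have h4 : a * b ≤ 1 / 2 * (1 / 2) := mul_le_mul ha2 hb2 hb (by norm_num)
  have h5 : a * b * c ≤ 1 / 2 * (1 / 2) * (1 / 2) :=
    mul_le_mul h4 hc2 hc (by norm_num)
  nlinarith

theorem mm_det_ge (α β γ : ℝ) (h : InH α β γ) : 1 / 4 ≤ (Mm α β γ).det := by
  obtain ⟨h1, h2, h3, h4, h5, h6, h7⟩ := h
  rw [mm_det]
  have hsq : α ^ 2 ≤ 1 / 4 ∧ β ^ 2 ≤ 1 / 4 ∧ γ ^ 2 ≤ 1 / 4 := by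
    refine ⟨?_, ?_, ?_⟩
    · rw [← sq_abs]; nlinarith [abs_nonneg α]
    · rw [← sq_abs]; nlinarith [abs_nonneg β]
    · rw [← sq_abs]; nlinarith [abs_nonneg γ]
  obtain ⟨g1, g2, g3⟩ := hsq
  rw [abs_le] at h1 h2 h3
  by_cases hp : 0 ≤ α * β * γ
  · nlinarith
  · push Not at hp
    rcases le_total 0 α with ha | ha <;> rcases le_total 0 β with hb | hb <;>
      rcases le_total 0 γ with hc | hc
    · exact absurd (mul_nonneg (mul_nonneg ha hb) hc) (not_le.mpr hp)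
    · have := det_aux α β (-γ) ha hb (by linarith) (by linarith) (by linarith) (by linarith) (by linarith)
      nlinarith
    · have := det_aux α (-β) γ ha (by linarith) hc (by linarith) (by linarith) (by linarith) (by linarith)
      nlinarith
    · exact absurd (mul_nonneg_of_nonpos_of_nonpos (mul_nonpos_of_nonneg_of_nonpos ha hb) hc) (not_le.mpr hp)
    · have := det_aux (-α) β γ (by linarith) hb hc (by linarith) (by linarith) (by linarith) (by linarith)
      nlinarith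
    · exact absurd (mul_nonneg_of_nonpos_of_nonpos (mul_nonpos_of_nonpos_of_nonneg ha hb) hc) (not_le.mpr hp)
    · exact absurd (mul_nonneg (mul_nonneg_of_nonpos_of_nonpos ha hb) hc) (not_le.mpr hp)
    · have := det_aux (-α) (-β) (-γ) (by linarith) (by linarith) (by linarith) (by linarith) (by linarith)
        (by linarith) (by linarith)
      nlinarith

theorem mm_det_pos (α β γ : ℝ) (h : InH α β γ) : 0 < (Mm α β γ).det := by
  have := mm_det_ge α β γ h
  linarith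

theorem mm_qf (α β γ : ℝ) (v : Fin 3 → ℝ) :
    qf (Mm α β γ) v = v 0 ^ 2 + v 1 ^ 2 + v 2 ^ 2 + 2 * α * (v 0 * v 1) + 2 * β * (v 0 * v 2)
      + 2 * γ * (v 1 * v 2) := by
  simp only [qf, dotProduct, mulVec, Fin.sum_univ_three, Mm]
  simp
  ring

theorem mm_qf_pos (α β γ : ℝ) (h : InH α β γ) (v : Fin 3 → ℝ) (hv : v ≠ 0) : 0 < qf (Mm α β γ) v := by
  have hD := mm_det_pos α β γ h
  rw [mm_det] at hD
  have h1 := h.1
  have hα : 0 < 1 - α ^ 2 := by
    rw [← sq_abs]; nlinarith [abs_nonneg α]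
  rw [mm_qf]
  have key : (1 - α ^ 2) * (v 0 ^ 2 + v 1 ^ 2 + v 2 ^ 2 + 2 * α * (v 0 * v 1) + 2 * β * (v 0 * v 2)
      + 2 * γ * (v 1 * v 2)) = (1 - α ^ 2) * (v 0 + α * v 1 + β * v 2) ^ 2
      + ((1 - α ^ 2) * v 1 + (γ - α * β) * v 2) ^ 2
      + (1 + 2 * α * β * γ - α ^ 2 - β ^ 2 - γ ^ 2) * v 2 ^ 2 := by ring
  by_cases h2 : v 2 = 0
  · by_cases h3 : v 1 = 0
    · have h4 : v 0 ≠ 0 := by
        intro h4
        apply hv
        ext i
        fin_cases i <;> simp [h2, h3, h4]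
      have := sq_pos_of_ne_zero h4
      rw [h2, h3]
      nlinarith
    · have h5 := sq_pos_of_ne_zero h3
      have h6 : 0 < (1 - α ^ 2) * v 1 ^ 2 := mul_pos hα h5
      rw [h2]
      nlinarith [sq_nonneg (v 0 + α * v 1)]
  · have h5 := sq_pos_of_ne_zero h2
    have h6 := mul_pos hD h5
    have h7 : 0 ≤ (1 - α ^ 2) * (v 0 + α * v 1 + β * v 2) ^ 2 := mul_nonneg hα.le (sq_nonneg _)
    have h8 := sq_nonneg ((1 - α ^ 2) * v 1 + (γ - α * β) * v 2)
    by_contra hc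
    push Not at hc
    have h9 := mul_nonpos_of_nonneg_of_nonpos hα.le hc
    rw [key] at h9
    linarith

theorem mm_posDef (α β γ : ℝ) (h : InH α β γ) : (Mm α β γ).PosDef := by
  refine PosDef.of_dotProduct_mulVec_pos ?_ ?_
  · rw [IsHermitian, conjTranspose_eq_transpose_of_trivial]
    ext i j
    fin_cases i <;> fin_cases j <;> rfl
  · intro v hv
    have := mm_qf_pos α β γ h v hv
    simpa [qf] using this

end Pool.Agent.Helper38.LW
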